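import Pool.Agent.H.MP_83d7ff_an.A

namespace Pool.Agent.Results.MP_83d7ff_an.Yes

open Set Filter Topology Matrix Pool.Agent.H.MP_83d7ff_an

/-- A quadratic function on `ℝⁿ`. -/
def IsQuad {n : ℕ} (q : (Fin n → ℝ) → ℝ) : Prop :=
  ∃ (Q : Matrix (Fin n) (Fin n) ℝ) (b : Fin n → ℝ) (c : ℝ), ∀ x, q x = 1 / 2 * x ⬝ᵥ Q *ᵥ x + b ⬝ᵥ x + c

/-- A polyhedron: an intersection of finitely many closed half-spaces. -/
def IsPoly {n : ℕ} (P : Set (Fin n → ℝ)) : Prop :=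
  ∃ (κ : Type) (_ : Finite κ) (a : κ → (Fin n → ℝ) →ₗ[ℝ] ℝ) (c : κ → ℝ), (∀ k, a k ≠ 0) ∧ P = {x | ∀ k, a k x ≤ c k}

/-- Piecewise quadratic functions. -/
def PQ {n : ℕ} (f : (Fin n → ℝ) → ℝ) : Prop :=
  Continuous f ∧ ∃ (ι : Type) (_ : Finite ι) (q : ι → (Fin n → ℝ) → ℝ), (∀ i, IsQuad (q i)) ∧ ∀ x, ∃ i, f x = q i x

/-- Piecewise linear-quadratic functions. -/
def PLQ {n : ℕ} (f : (Fin n → ℝ) → ℝ) : Prop :=
  Continuous f ∧ ∃ (ι : Type) (_ : Finite ι) (q : ι → (Fin n → ℝ) → ℝ) (P : ι → Set (Fin n → ℝ)),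
    (∀ i, IsQuad (q i) ∧ IsPoly (P i) ∧ EqOn f (q i) (P i)) ∧ ⋃ i, P i = univ

/-- `f` is twice semidifferentiable at `x`. -/
def TwiceSemi {n : ℕ} (f : (Fin n → ℝ) → ℝ) (x : Fin n → ℝ) : Prop :=
  ∃ d c : (Fin n → ℝ) → ℝ,
    (∀ v, Tendsto (fun p : (Fin n → ℝ) × ℝ => (f (x + p.2 • p.1) - f x) / p.2) (𝓝 v ×ˢ 𝓝[>] 0) (𝓝 (d v))) ∧
    ∀ w, Tendsto (fun p : (Fin n → ℝ) × ℝ => (f (x + p.2 • p.1) - f x - p.2 * d p.1) / p.2 ^ 2) (𝓝 w ×ˢ 𝓝[>] 0) (𝓝 (c w))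

lemma ex {n : ℕ} {q : (Fin n → ℝ) → ℝ} (h : IsQuad q) : ∃ L B, Ex q L B := by
  obtain ⟨Q, b, c, h⟩ := h
  obtain rfl := funext h
  have h1 : ∀ x y, y ⬝ᵥ Qᵀ *ᵥ x = x ⬝ᵥ Q *ᵥ y := fun x y => by rw [dotProduct_mulVec, vecMul_transpose, dotProduct_comm]
  refine ⟨fun y => (2 : ℝ) • toLinearMap₂' ℝ ((1 / 4 : ℝ) • (Q + Qᵀ)) y + dotProductBilin ℝ ℝ b,
    toLinearMap₂' ℝ ((1 / 4 : ℝ) • (Q + Qᵀ)), fun y v t => ?_, by fun_prop, fun e => ?_, ?_, fun y v => ?_⟩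
  · simp [toLinearMap₂'_apply', mulVec_add, add_mulVec, mulVec_smul, smul_mulVec, h1]
    ring
  · simp only [LinearMap.add_apply, LinearMap.smul_apply, toLinearMap₂'_apply']
    fun_prop
  · simp only [toLinearMap₂'_apply']
    fun_prop
  · rw [map_add, smul_add, add_right_comm]

theorem result (n : ℕ) (f : (Fin n → ℝ) → ℝ) (h : PQ f) (hd : ∀ x, TwiceSemi f x) : PLQ f := by
  obtain ⟨hf, ι, _, q, h1, h2⟩ := h
  have := (finite_range q).to_subtype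
  choose L B hq using fun g : range q => ex (q := g.1) (g.2.choose_spec ▸ h1 _)
  choose p hp using fun g : {g : range q × range q // g.1 ≠ g.2} =>
    Function.ne_iff.1 (sub_ne_zero.2 (Subtype.val_injective.ne g.2))
  let κ := Σ g : {g : range q × range q // g.1 ≠ g.2},
    {φ : (Fin n → ℝ) →ₗ[ℝ] ℝ | φ ≠ 0 ∧ ∀ v, φ v = -1 → (g.1.1.1 - g.1.2.1) (p g + v) = 0}
  have := fun g => (((hq g.1.1).sub (hq g.1.2)).fin (hp g)).to_subtype
  obtain ⟨c, hc⟩ : ∃ c : κ → ℝ, ∀ k, c k = k.2.1 (p k.1) - 1 := ⟨_, fun _ => rfl⟩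
  let C : (κ → ℝˣ) → Set (Fin n → ℝ) := fun s => ⋂ k, {x | ((s k).1 • k.2.1) x < s k * c k}
  have k0 : ∀ φ : (Fin n → ℝ) →ₗ[ℝ] ℝ, Continuous φ := fun φ => φ.continuous_of_finiteDimensional
  have k1 : ∀ s : {s : κ → ({1, -1} : Set ℝˣ) // (C fun k => s k).Nonempty}, ∃ i : range q, EqOn f i.1 (C fun k => s.1 k) :=
    fun s => cell hq Subtype.val_injective hf (fun x => (h2 x).elim fun i e => ⟨⟨_, i, rfl⟩, e⟩) hd
      (isOpen_iInter_of_finite fun k => isOpen_lt (k0 _) continuous_const)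
      (convex_iInter fun k => convex_halfSpace_lt (LinearMap.isLinear _) _).isPreconnected s.2 fun y hy i j ij ψ a b => by
        have e : ψ (p ⟨(i, j), ij⟩ - y) ≠ 0 := fun e => hp ⟨(i, j), ij⟩ (by simpa using b _ e)
        have := mem_iInter.1 hy ⟨⟨(i, j), ij⟩, (ψ (p ⟨(i, j), ij⟩ - y))⁻¹ • ψ, smul_ne_zero (inv_ne_zero e) a, fun v hv => by
          rw [← add_sub_cancel y (p _), add_assoc]
          refine b _ ?_
          rw [LinearMap.smul_apply, smul_eq_mul, inv_mul_eq_iff_eq_mul₀ e] at hv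
          rw [map_add, hv]
          ring⟩
        refine (mem_ofPred.1 this).ne ?_
        have e' := inv_mul_cancel₀ e
        rw [hc, LinearMap.smul_apply, smul_eq_mul]
        congr 1
        simp only [LinearMap.smul_apply, smul_eq_mul, map_sub] at e' ⊢
        linarith
  choose i hi using k1
  refine ⟨hf, _, inferInstance, fun s => (i s).1, fun s => {x | ∀ k : κ, ((s.1 k).1.1 • k.2.1) x ≤ (s.1 k).1 * c k},
    fun s => ⟨forall_mem_range.2 h1 _ (i s).2, ⟨κ, inferInstance, _, _, fun k => smul_ne_zero (Units.ne_zero _) k.2.2.1, rfl⟩,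
      ((hi s).closure hf (hq _).c1).mono fun x hx => ?_⟩, ?_⟩
  · obtain ⟨z, hz⟩ := s.2
    refine mem_closure_of_tendsto (b := 𝓝[>] (0 : ℝ)) (f := fun t => x + t • (z - x)) ((Continuous.tendsto' (by fun_prop) _ _
      (by simp)).mono_left nhdsWithin_le_nhds) (mem_of_superset (Ioo_mem_nhdsGT one_pos) fun t ht => mem_iInter.2 fun k => ?_)
    have := mem_iInter.1 hz k
    have := hx k
    simp only [mem_ofPred, map_add, map_smul, map_sub, smul_eq_mul] at *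
    nlinarith [ht.1, ht.2]
  · refine (isClosed_iUnion_of_finite fun s => by
      simpa only [ofPred_forall] using isClosed_iInter fun k => isClosed_le (k0 _) continuous_const).closure_eq.symm.trans
        (Dense.closure_eq ((dense_iInter_of_isOpen (f := fun k : κ => {x | k.2.1 x - c k ≠ 0}) (fun k => isOpen_ne_fun
          ((k0 _).sub continuous_const) continuous_const) fun k => Ex.dens (L := fun _ => k.2.1) (B := 0) (p := p k.1)
            ⟨by simp [sub_add_eq_add_sub], (k0 _).sub continuous_const, fun _ => continuous_const, continuous_const, by simp⟩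
            (by simp [hc])).mono fun x hx => ?_))
    have : ∀ k : κ, ∃ s : ({1, -1} : Set ℝˣ), (s.1.1 • k.2.1) x < s.1 * c k := fun k =>
      (lt_or_gt_of_ne (sub_ne_zero.1 (mem_iInter.1 hx k))).elim (fun h => ⟨⟨1, by simp⟩, by simpa using h⟩)
        fun h => ⟨⟨-1, by simp⟩, by simpa using h⟩
    choose s hs using this
    exact mem_iUnion.2 ⟨⟨s, x, mem_iInter.2 hs⟩, fun k => (hs k).le⟩

end Pool.Agent.Results.MP_83d7ff_an.Yes
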